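import Mathlib
import Pool.Agent.Q180.WT.StmA
import Pool.Agent.Q225.D3.Wt

set_option autoImplicit false

/-!
# Project WT, job WT: weights of the conjugates of a determinant form
-/

namespace Pool.Agent.Q237.WT

open Pool.Agent.H204R3.CM Pool.Agent.Q180.WT Polynomial
open Pool.Agent.Q60.D3 (AV IsHom cx mulF HasWeight conjF chi cxM)
open Pool.Agent.Q225.D3 (kbasis eig_prop)

/-- **JOB WT.** -/
theorem wt : S_wt := by
  intro A n K σ
  have hd0 : 0 < K.d := Nat.pos_of_ne_zero (fun h => by have := K.hd; rw [h] at this; exact not_squarefree_zero this)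
  have hdC : (K.d : ℂ) ≠ 0 := by exact_mod_cast hd0.ne'
  have hfin : Module.finrank ℚ A.H = 2 * n := by rw [A.dim, K.dimA]
  obtain ⟨w, b, hb⟩ := kbasis n hfin K.φ K.d hd0 K.sq
  have hmap : ∀ (τ : ℂ ≃+* ℂ) (v : Fin n → A.H), conjF τ K.δ.toMultilinearMap v = τ (K.δ v) :=
    fun τ v => rfl
  by_cases h0 : K.δ = 0
  · refine ⟨0, fun v => ?_, fun z _ u => ?_⟩
    · rw [hmap, h0, AlternatingMap.zero_apply, map_zero, zero_apply]
    · rw [zero_apply, zero_apply, mul_zero]
  obtain ⟨ψ, hψ, hz⟩ := K.wt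
  let τL : (ℂ ≃+* ℂ) → (ℂ →ₗ[ℚ] ℂ) := fun τ => (τ : ℂ →+* ℂ).toRatAlgHom.toLinearMap
  let δσ : A.H [⋀^Fin n]→ₗ[ℚ] ℂ := (τL σ).compAlternatingMap K.δ
  have hδσ : ∀ v, δσ v = σ (K.δ v) := fun v => rfl
  have eigσ : ∀ (v : Fin n → A.H) (k : Fin n),
      δσ (Function.update v k (K.φ (v k))) = σ K.μ * δσ v := by
    intro v k
    rw [hδσ, hδσ, K.eig, map_mul]
  have hσμ : σ K.μ * σ K.μ = K.μ * K.μ := by
    rw [← map_mul, K.hμ, map_neg, map_natCast]
  have hσμ' : σ K.μ = K.μ ∨ σ K.μ = -K.μ := mul_self_eq_mul_self_iff.1 hσμ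
  rcases hσμ' with h | h
  · rw [h] at eigσ
    obtain ⟨c, hc⟩ := eig_prop K.φ K.δ δσ K.μ K.eig eigσ w b hb h0
    have hchi : chi K.μ σ = 1 := by unfold chi; rw [if_pos h]
    rw [hchi, mul_one]
    refine ⟨c • ψ, fun v => ?_, fun z hz1 u => ?_⟩
    · rw [smul_apply, hψ, hmap, ← hδσ, hc]
      rfl
    · rw [smul_apply, smul_apply, hz z hz1, smul_eq_mul, smul_eq_mul]
      ring
  · have hμ0 : K.μ ≠ 0 := by
      intro h'
      have := K.hμ
      rw [h', mul_zero] at this
      exact hdC (by rw [← neg_eq_zero, ← this])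
    have hne : σ K.μ ≠ K.μ := by
      rw [h]
      intro h'
      exact hμ0 (by linear_combination (-1 / 2 : ℂ) * h')
    have hchi : chi K.μ σ = -1 := by unfold chi; rw [if_neg hne]
    -- complex conjugation
    have hcμ : (starRingEnd ℂ) K.μ = -K.μ := by
      have h1 : (starRingEnd ℂ) K.μ * (starRingEnd ℂ) K.μ = K.μ * K.μ := by
        rw [← map_mul, K.hμ, map_neg, Complex.conj_natCast]
      rcases mul_self_eq_mul_self_iff.1 h1 with h2 | h2
      · exfalso
        rw [Complex.conj_eq_iff_real] at h2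
        obtain ⟨r, hr⟩ := h2
        have h3 := K.hμ
        rw [hr] at h3
        have h4 : r * r = -(K.d : ℝ) := by exact_mod_cast h3
        have h5 : (0 : ℝ) < K.d := by exact_mod_cast hd0
        nlinarith [mul_self_nonneg r]
      · exact h2
    let cR : ℂ →ₗ[ℝ] ℂ := Complex.conjAe.toLinearMap
    have hcR : ∀ x, cR x = (starRingEnd ℂ) x := fun x => rfl
    let δc : A.H [⋀^Fin n]→ₗ[ℚ] ℂ := (cR.restrictScalars ℚ).compAlternatingMap K.δ
    have hδc : ∀ v, δc v = (starRingEnd ℂ) (K.δ v) := fun v => rfl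
    have eigc : ∀ (v : Fin n → A.H) (k : Fin n),
        δc (Function.update v k (K.φ (v k))) = σ K.μ * δc v := by
      intro v k
      rw [hδc, hδc, K.eig, map_mul, hcμ, h]
    have hc0 : δc ≠ 0 := by
      intro h'
      apply h0
      ext v
      have := congrArg (fun F => F v) h'
      simp only [hδc, AlternatingMap.zero_apply] at this
      rw [AlternatingMap.zero_apply]
      exact (map_eq_zero _).1 this
    obtain ⟨c, hc⟩ := eig_prop K.φ δc δσ (σ K.μ) eigc eigσ w b hb hc0
    rw [hchi]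
    refine ⟨c • cR.compMultilinearMap ψ, fun v => ?_, fun z hz1 u => ?_⟩
    · rw [smul_apply, LinearMap.compMultilinearMap_apply, hψ, hmap, ← hδσ, hc]
      rfl
    · rw [smul_apply, smul_apply, LinearMap.compMultilinearMap_apply,
        LinearMap.compMultilinearMap_apply, hz z hz1, hcR, hcR, map_mul, smul_eq_mul, smul_eq_mul]
      have hz0 : z ≠ 0 := by
        intro h'
        rw [h', norm_zero] at hz1
        exact zero_ne_one hz1
      have h6 : (starRingEnd ℂ) (z ^ K.s) = z ^ (K.s * -1) := by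
        rw [map_zpow₀, mul_neg_one, zpow_neg, ← inv_zpow]
        congr 1
        rw [Complex.inv_def, Complex.normSq_eq_norm_sq, hz1]
        simp
      rw [h6]
      ring

end Pool.Agent.Q237.WT
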